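import Mathlib

/-!
Product measures with densities, and linear maps preserving the volume.
-/

set_option autoImplicit false

open MeasureTheory Set Finset
open scoped ENNReal

namespace Pool.Agent.LeoC.H2

section pid

variable {δ : Type} [Fintype δ] {X : δ → Type} [∀ i, MeasurableSpace (X i)]
  (μ : ∀ i, Measure (X i)) [∀ i, SigmaFinite (μ i)]

theorem lint_prod (f : ∀ i, X i → ℝ≥0∞) (hf : ∀ i, Measurable (f i)) :
    ∫⁻ x, ∏ i, f i (x i) ∂(Measure.pi μ) = ∏ i, ∫⁻ x, f i x ∂(μ i) := by
  classical
  by_cases hne : Nonempty (∀ i, X i)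
  · obtain ⟨x0⟩ := hne
    have hF : Measurable fun x : ∀ i, X i => ∏ i, f i (x i) :=
      Finset.measurable_prod _ fun i _ => (hf i).comp (measurable_pi_apply i)
    have key : ∀ s : Finset δ, ∀ x : ∀ i, X i,
        (lmarginal μ s fun x => ∏ i, f i (x i)) x =
          (∏ i ∈ s, ∫⁻ y, f i y ∂(μ i)) * ∏ i ∈ sᶜ, f i (x i) := by
      intro s
      induction s using Finset.induction_on with
      | empty => intro x; simp
      | insert i s hi ih =>
        intro x
        rw [lmarginal_insert _ hF hi]
        simp only [ih]
        have hic : i ∈ sᶜ := by simpa using hi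
        have h1 : ∀ xi : X i, (∏ j ∈ s, ∫⁻ y, f j y ∂(μ j)) *
            ∏ j ∈ sᶜ, f j (Function.update x i xi j) =
            ((∏ j ∈ s, ∫⁻ y, f j y ∂(μ j)) * ∏ j ∈ (insert i s)ᶜ, f j (x j)) * f i xi := by
          intro xi
          rw [← Finset.mul_prod_erase _ _ hic, Function.update_self]
          have h2 : ∏ j ∈ sᶜ.erase i, f j (Function.update x i xi j) =
              ∏ j ∈ (insert i s)ᶜ, f j (x j) := by
            have h3 : sᶜ.erase i = (insert i s)ᶜ := by
              ext j; simp
            rw [h3]
            refine Finset.prod_congr rfl fun j hj => ?_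
            have : j ≠ i := by
              rintro rfl
              simp at hj
            rw [Function.update_of_ne this]
          rw [h2]
          ring
        simp only [h1]
        rw [lintegral_const_mul _ (hf i), Finset.prod_insert hi]
        ring
    rw [lintegral_eq_lmarginal_univ x0, key]
    simp
  · rw [not_nonempty_iff] at hne
    rw [lintegral_of_isEmpty]
    obtain ⟨i, hi⟩ : ∃ i, IsEmpty (X i) := by
      by_contra h
      push Not at h
      exact hne.false fun i => (h i).some
    symm
    refine Finset.prod_eq_zero (Finset.mem_univ i) ?_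
    rw [lintegral_of_isEmpty]

theorem pi_wd (f : ∀ i, X i → ℝ≥0∞) (hf : ∀ i, Measurable (f i))
    [∀ i, SigmaFinite ((μ i).withDensity (f i))] :
    Measure.pi (fun i => (μ i).withDensity (f i)) =
      (Measure.pi μ).withDensity fun x => ∏ i, f i (x i) := by
  classical
  symm
  refine (Measure.pi_eq fun s hs => ?_).symm
  rw [withDensity_apply _ (MeasurableSet.univ_pi hs), Measure.restrict_pi_pi,
    lint_prod _ f hf]
  refine Finset.prod_congr rfl fun i _ => ?_
  rw [withDensity_apply _ (hs i)]

end pid

section haar

variable {V W : Type} [AddCommGroup V] [Module ℝ V] [FiniteDimensional ℝ V]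
  [TopologicalSpace V] [IsTopologicalAddGroup V] [ContinuousSMul ℝ V] [T2Space V]
  [SecondCountableTopology V] [LocallyCompactSpace V]
  [MeasureSpace V] [BorelSpace V] [Measure.IsAddHaarMeasure (volume : Measure V)]
  [AddCommGroup W] [Module ℝ W] [FiniteDimensional ℝ W]
  [TopologicalSpace W] [IsTopologicalAddGroup W] [ContinuousSMul ℝ W] [T2Space W]
  [SecondCountableTopology W] [LocallyCompactSpace W]
  [MeasureSpace W] [BorelSpace W] [Measure.IsAddHaarMeasure (volume : Measure W)]

theorem mp_lin (E : V ≃ₗ[ℝ] W) (C : Set W) (hC : MeasurableSet C) (h0 : volume C ≠ 0)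
    (h1 : volume C ≠ ∞) (hE : volume (E ⁻¹' C) = volume C) :
    MeasurePreserving E volume volume := by
  set E' : V ≃L[ℝ] W := E.toContinuousLinearEquiv with hE'
  have hEE : (E : V → W) = E' := rfl
  rw [hEE] at hE ⊢
  have h2 : (Measure.map E' volume).IsAddHaarMeasure := E'.isAddHaarMeasure_map volume
  have h3 := Measure.isAddLeftInvariant_eq_smul (Measure.map E' volume) (volume : Measure W)
  set c := Measure.addHaarScalarFactor (Measure.map E' volume) (volume : Measure W) with hc
  have h4 : Measure.map E' volume C = volume C := by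
    rw [Measure.map_apply E'.continuous.measurable hC, hE]
  have hc1 : c = 1 := by
    rw [h3, Measure.smul_apply] at h4
    have h5 : (c : ℝ≥0∞) * volume C = 1 * volume C := by
      rw [one_mul]; exact h4
    have h6 := (ENNReal.mul_left_inj h0 h1).1 h5
    exact_mod_cast h6
  rw [hc1, one_smul] at h3
  exact ⟨E'.continuous.measurable, h3⟩

end haar

end Pool.Agent.LeoC.H2
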