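import Pool.Agent.LeoC.UpStmts
import Pool.Agent.Helper2_LeoC.Pid

/-!
Rearrangements of the coordinates.
-/

set_option autoImplicit false

open NumberField NumberField.InfinitePlace NumberField.mixedEmbedding MeasureTheory Set
open Pool.Agent.LeoK Pool.Agent.LeoG Pool.Agent.LeoC
open scoped ENNReal Classical

namespace Pool.Agent.LeoC.H2

variable (k : Type) [Field k] [NumberField k]

/-- real places -/
abbrev RP : Type := {w : InfinitePlace k // IsReal w}

/-- complex places -/
abbrev CP : Type := {w : InfinitePlace k // IsComplex w}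

/-- the space of forms, by places -/
abbrev FS : Type := (RP k → Fin 4 → ℝ) × (CP k → Fin 4 → ℂ)

/-- the space of invariants, by places -/
abbrev IS : Type := (RP k → ℝ × ℝ × ℝ) × (CP k → ℂ × ℝ × ℂ)

/-- the space of invariants -/
abbrev JS : Type := MS k × PS k × MS k

instance j1 : BorelSpace (MS k) := inferInstance

instance j2 : BorelSpace (Fin 4 → MS k) := Pi.borelSpace

instance j3 : MeasurableAdd (MS k) := inferInstance

/-- glue -/
noncomputable def glue (a : RP k → ℝ) (b : CP k → ℝ) : PS k := fun v =>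
  if h : IsReal v then a ⟨v, h⟩ else b ⟨v, not_isReal_iff_isComplex.mp h⟩

/-- the first rearrangement -/
def thE : (Fin 4 → MS k) ≃ₗ[ℝ] FS k where
  toFun g := (fun w i => (g i).1 w, fun w i => (g i).2 w)
  invFun u := fun i => (fun w => u.1 w i, fun w => u.2 w i)
  map_add' _ _ := rfl
  map_smul' _ _ := rfl
  left_inv _ := rfl
  right_inv _ := rfl

/-- the second rearrangement -/
noncomputable def xiE : IS k ≃ₗ[ℝ] JS k where
  toFun u := ((fun w => (u.1 w).1, fun w => (u.2 w).1),
    glue k (fun w => (u.1 w).2.1) (fun w => (u.2 w).2.1),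
    (fun w => (u.1 w).2.2, fun w => (u.2 w).2.2))
  invFun y := (fun w => (y.1.1 w, y.2.1 w.1, y.2.2.1 w), fun w => (y.1.2 w, y.2.1 w.1, y.2.2.2 w))
  map_add' u v := by
    refine Prod.ext rfl (Prod.ext ?_ rfl)
    funext x
    change glue k (fun w => ((u + v).1 w).2.1) (fun w => ((u + v).2 w).2.1) x =
      glue k (fun w => (u.1 w).2.1) (fun w => (u.2 w).2.1) x +
      glue k (fun w => (v.1 w).2.1) (fun w => (v.2 w).2.1) x
    unfold glue
    by_cases h : IsReal x
    · simp [h]
    · simp [h]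
  map_smul' t u := by
    refine Prod.ext rfl (Prod.ext ?_ rfl)
    funext x
    change glue k (fun w => ((t • u).1 w).2.1) (fun w => ((t • u).2 w).2.1) x =
      t • glue k (fun w => (u.1 w).2.1) (fun w => (u.2 w).2.1) x
    unfold glue
    by_cases h : IsReal x
    · simp [h]
    · simp [h]
  left_inv u := by
    refine Prod.ext ?_ ?_
    · funext w
      refine Prod.ext rfl (Prod.ext ?_ rfl)
      simp [glue, w.2]
    · funext w
      refine Prod.ext rfl (Prod.ext ?_ rfl)
      have h : ¬ IsReal w.1 := not_isReal_iff_isComplex.2 w.2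
      simp [glue, h]
  right_inv y := by
    refine Prod.ext rfl (Prod.ext ?_ rfl)
    funext x
    by_cases h : IsReal x
    · simp [glue, h]
    · simp [glue, h]

omit [NumberField k] in
theorem glue_real (a : RP k → ℝ) (b : CP k → ℝ) (w : RP k) : glue k a b w.1 = a w := by
  simp [glue, w.2]

omit [NumberField k] in
theorem glue_cplx (a : RP k → ℝ) (b : CP k → ℝ) (w : CP k) : glue k a b w.1 = b w := by
  have h : ¬ IsReal w.1 := not_isReal_iff_isComplex.2 w.2
  simp [glue, h]

omit [NumberField k] in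
theorem all_glue (P : InfinitePlace k → Prop) :
    (∀ v, P v) ↔ (∀ w : RP k, P w.1) ∧ ∀ w : CP k, P w.1 := by
  constructor
  · intro h
    exact ⟨fun w => h w.1, fun w => h w.1⟩
  · rintro ⟨h1, h2⟩ v
    by_cases h : IsReal v
    · exact h1 ⟨v, h⟩
    · exact h2 ⟨v, not_isReal_iff_isComplex.mp h⟩

/-- the unit box of the mixed space -/
def bx : Set (MS k) := (Set.pi univ fun _ => Icc (0 : ℝ) 1) ×ˢ
  (Set.pi univ fun _ => Metric.ball (0 : ℂ) 1)

theorem vball : volume (Metric.ball (0 : ℂ) 1) = NNReal.pi := by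
  simp [Complex.volume_ball]

theorem mp_th : MeasurePreserving (thE k) volume volume := by
  have i1 : Measure.IsAddHaarMeasure (volume : Measure (Fin 4 → MS k)) :=
    Measure.pi.isAddHaarMeasure fun _ => (volume : Measure (MS k))
  have i2 : Measure.IsAddHaarMeasure (volume : Measure (RP k → Fin 4 → ℝ)) :=
    Measure.pi.isAddHaarMeasure fun _ => (volume : Measure (Fin 4 → ℝ))
  have i4 : Measure.IsAddHaarMeasure (volume : Measure (Fin 4 → ℂ)) :=
    Measure.pi.isAddHaarMeasure fun _ => (volume : Measure ℂ)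
  have i3 : Measure.IsAddHaarMeasure (volume : Measure (CP k → Fin 4 → ℂ)) :=
    Measure.pi.isAddHaarMeasure fun _ => (volume : Measure (Fin 4 → ℂ))
  have i5 : Measure.IsAddHaarMeasure (volume : Measure (FS k)) :=
    Measure.prod.instIsAddHaarMeasure _ _
  set C : Set (FS k) := (Set.pi univ fun _ => Set.pi univ fun _ => Icc (0 : ℝ) 1) ×ˢ
    (Set.pi univ fun _ => Set.pi univ fun _ => Metric.ball (0 : ℂ) 1) with hC
  have hCm : MeasurableSet C := (MeasurableSet.univ_pi fun _ => MeasurableSet.univ_pi fun _ =>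
    measurableSet_Icc).prod (MeasurableSet.univ_pi fun _ => MeasurableSet.univ_pi fun _ =>
    Metric.isOpen_ball.measurableSet)
  have hCv : volume C = ((NNReal.pi : ℝ≥0∞) ^ 4) ^ Fintype.card (CP k) := by
    rw [hC, Measure.volume_eq_prod, Measure.prod_prod, volume_pi_pi, volume_pi_pi]
    simp only [volume_pi_pi, vball]
    simp
  have hpre : (thE k) ⁻¹' C = Set.pi univ fun _ => bx k := by
    ext g
    constructor
    · rintro ⟨h1, h2⟩ i _
      exact ⟨fun w _ => h1 w (mem_univ _) i (mem_univ _), fun w _ => h2 w (mem_univ _) i (mem_univ _)⟩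
    · intro h
      exact ⟨fun w _ i _ => (h i (mem_univ _)).1 w (mem_univ _),
        fun w _ i _ => (h i (mem_univ _)).2 w (mem_univ _)⟩
  refine mp_lin (thE k) C hCm ?_ ?_ ?_
  · rw [hCv]
    simp [NNReal.pi_ne_zero]
  · rw [hCv]
    exact ne_of_lt (by finiteness)
  · rw [hCv, hpre, volume_pi_pi]
    have hb : volume (bx k) = (NNReal.pi : ℝ≥0∞) ^ Fintype.card (CP k) := by
      rw [bx, Measure.volume_eq_prod, Measure.prod_prod, volume_pi_pi, volume_pi_pi]
      simp only [vball]
      simp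
    simp only [hb]
    simp [← pow_mul, mul_comm]

theorem mp_xi : MeasurePreserving (xiE k) volume volume := by
  have i1 : Measure.IsAddHaarMeasure (volume : Measure (ℝ × ℝ)) :=
    Measure.prod.instIsAddHaarMeasure _ _
  have i2 : Measure.IsAddHaarMeasure (volume : Measure (ℝ × ℝ × ℝ)) :=
    Measure.prod.instIsAddHaarMeasure _ _
  have i3 : Measure.IsAddHaarMeasure (volume : Measure (ℝ × ℂ)) :=
    Measure.prod.instIsAddHaarMeasure _ _
  have i4 : Measure.IsAddHaarMeasure (volume : Measure (ℂ × ℝ × ℂ)) :=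
    Measure.prod.instIsAddHaarMeasure _ _
  have i5 : Measure.IsAddHaarMeasure (volume : Measure (RP k → ℝ × ℝ × ℝ)) :=
    Measure.pi.isAddHaarMeasure fun _ => (volume : Measure (ℝ × ℝ × ℝ))
  have i6 : Measure.IsAddHaarMeasure (volume : Measure (CP k → ℂ × ℝ × ℂ)) :=
    Measure.pi.isAddHaarMeasure fun _ => (volume : Measure (ℂ × ℝ × ℂ))
  have i7 : Measure.IsAddHaarMeasure (volume : Measure (IS k)) :=
    Measure.prod.instIsAddHaarMeasure _ _
  have i8 : Measure.IsAddHaarMeasure (volume : Measure (PS k × MS k)) :=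
    Measure.prod.instIsAddHaarMeasure _ _
  have i9 : Measure.IsAddHaarMeasure (volume : Measure (JS k)) :=
    Measure.prod.instIsAddHaarMeasure _ _
  set D : Set (PS k) := Set.pi univ fun _ => Icc (0 : ℝ) 1 with hD
  have hDm : MeasurableSet D := MeasurableSet.univ_pi fun _ => measurableSet_Icc
  have hbm : MeasurableSet (bx k) := (MeasurableSet.univ_pi fun _ => measurableSet_Icc).prod
    (MeasurableSet.univ_pi fun _ => Metric.isOpen_ball.measurableSet)
  have hb : volume (bx k) = (NNReal.pi : ℝ≥0∞) ^ Fintype.card (CP k) := by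
    rw [bx, Measure.volume_eq_prod, Measure.prod_prod, volume_pi_pi, volume_pi_pi]
    simp only [vball]
    simp
  have hDv : volume D = 1 := by
    rw [hD, volume_pi_pi]
    simp
  set C : Set (JS k) := bx k ×ˢ (D ×ˢ bx k) with hC
  have hCm : MeasurableSet C := hbm.prod (hDm.prod hbm)
  have hCv : volume C = (NNReal.pi : ℝ≥0∞) ^ Fintype.card (CP k) *
      (NNReal.pi : ℝ≥0∞) ^ Fintype.card (CP k) := by
    rw [hC, Measure.volume_eq_prod, Measure.prod_prod, Measure.volume_eq_prod (PS k) (MS k),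
      Measure.prod_prod, hb, hDv, one_mul]
  have hpre : (xiE k) ⁻¹' C =
      (Set.pi univ fun _ => (Icc (0 : ℝ) 1) ×ˢ ((Icc (0 : ℝ) 1) ×ˢ (Icc (0 : ℝ) 1))) ×ˢ
      (Set.pi univ fun _ => (Metric.ball (0 : ℂ) 1) ×ˢ ((Icc (0 : ℝ) 1) ×ˢ
        (Metric.ball (0 : ℂ) 1))) := by
    ext u
    constructor
    · rintro ⟨⟨h1, h2⟩, h3, ⟨h4, h5⟩⟩
      refine ⟨fun w _ => ⟨h1 w (mem_univ _), ?_, h4 w (mem_univ _)⟩,
        fun w _ => ⟨h2 w (mem_univ _), ?_, h5 w (mem_univ _)⟩⟩
      · have := h3 w.1 (mem_univ _)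
        rwa [show (xiE k u).2.1 w.1 = (u.1 w).2.1 from glue_real k (fun w => (u.1 w).2.1) (fun w => (u.2 w).2.1) w] at this
      · have := h3 w.1 (mem_univ _)
        rwa [show (xiE k u).2.1 w.1 = (u.2 w).2.1 from glue_cplx k (fun w => (u.1 w).2.1) (fun w => (u.2 w).2.1) w] at this
    · rintro ⟨h1, h2⟩
      refine ⟨⟨fun w _ => (h1 w (mem_univ _)).1, fun w _ => (h2 w (mem_univ _)).1⟩, ?_,
        ⟨fun w _ => (h1 w (mem_univ _)).2.2, fun w _ => (h2 w (mem_univ _)).2.2⟩⟩
      have : ∀ v, (xiE k u).2.1 v ∈ Icc (0 : ℝ) 1 := by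
        rw [all_glue]
        refine ⟨fun w => ?_, fun w => ?_⟩
        · rw [show (xiE k u).2.1 w.1 = (u.1 w).2.1 from glue_real k (fun w => (u.1 w).2.1) (fun w => (u.2 w).2.1) w]
          exact (h1 w (mem_univ _)).2.1
        · rw [show (xiE k u).2.1 w.1 = (u.2 w).2.1 from glue_cplx k (fun w => (u.1 w).2.1) (fun w => (u.2 w).2.1) w]
          exact (h2 w (mem_univ _)).2.1
      exact fun v _ => this v
  refine mp_lin (xiE k) C hCm ?_ ?_ ?_
  · rw [hCv]
    simp [NNReal.pi_ne_zero]
  · rw [hCv]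
    exact ne_of_lt (by finiteness)
  · rw [hCv, hpre, Measure.volume_eq_prod, Measure.prod_prod, volume_pi_pi, volume_pi_pi]
    have e1 : volume ((Icc (0 : ℝ) 1) ×ˢ ((Icc (0 : ℝ) 1) ×ˢ (Icc (0 : ℝ) 1))) = 1 := by
      rw [Measure.volume_eq_prod, Measure.prod_prod, Measure.volume_eq_prod, Measure.prod_prod]
      simp
    have e2 : volume ((Metric.ball (0 : ℂ) 1) ×ˢ ((Icc (0 : ℝ) 1) ×ˢ (Metric.ball (0 : ℂ) 1))) =
        NNReal.pi * NNReal.pi := by
      rw [Measure.volume_eq_prod, Measure.prod_prod, Measure.volume_eq_prod, Measure.prod_prod,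
        vball]
      simp
    simp only [e1, e2]
    simp [mul_pow]

end Pool.Agent.LeoC.H2
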