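import Pool.Agent.Helper2_LeoC.Lin

/-!
Squad LEOC, module VOL: volume of a region of forms over all places.
-/

set_option autoImplicit false

open NumberField NumberField.InfinitePlace NumberField.mixedEmbedding MeasureTheory Set Module
open Pool.Agent.LeoK Pool.Agent.LeoG Pool.Agent.LeoC
open scoped ENNReal Classical

namespace Pool.Agent.LeoC.H2

/-! ## Measurability -/

theorem meas_mmR : Measurable fun w : Fin 4 → ℝ => mm w := by
  unfold mm dsc
  fun_prop

theorem meas_mmC : Measurable fun w : Fin 4 → ℂ => mm w := by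
  unfold mm dsc
  fun_prop

theorem meas_hcC : Measurable fun w : Fin 4 → ℂ => hc w 1 0 := by
  have hg : Measurable fun w : Fin 4 → ℂ => gval w 1 0 := by
    unfold gval
    fun_prop
  have hv : Measurable fun w : Fin 4 → ℂ => gcov w 1 0 := by
    unfold gcov
    fun_prop
  have hp : Measurable fun w : Fin 4 → ℂ => (27 * mm w) ^ (1 / 2 : ℂ) :=
    (meas_mmC.const_mul 27).pow_const _
  have h1 : Measurable fun w : Fin 4 → ℂ => gcov w 1 0 / (27 * mm w) ^ (1 / 2 : ℂ) := hv.div hp
  have h2 : Measurable fun w : Fin 4 → ℂ =>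
      ‖(gval w 1 0 + gcov w 1 0 / (27 * mm w) ^ (1 / 2 : ℂ)) / 2‖ ^ (2 / 3 : ℝ) :=
    (measurable_norm.comp ((hg.add h1).div_const 2)).pow_const _
  have h3 : Measurable fun w : Fin 4 → ℂ =>
      ‖(gval w 1 0 - gcov w 1 0 / (27 * mm w) ^ (1 / 2 : ℂ)) / 2‖ ^ (2 / 3 : ℝ) :=
    (measurable_norm.comp ((hg.sub h1).div_const 2)).pow_const _
  have h4 : Measurable fun w : Fin 4 → ℂ => 2 * (‖mm w‖ / 27) ^ (1 / 6 : ℝ) :=
    (((measurable_norm.comp meas_mmC).div_const 27).pow_const _).const_mul 2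
  exact (h2.add h3).div h4

/-! ## One place -/

theorem mp_of {X Y : Type} [MeasureSpace X] [MeasureSpace Y] (ψ : X → Y) (hψ : Measurable ψ)
    (S : Set X) (D : Y → ℝ≥0∞)
    (h : ∀ f : Y → ℝ≥0∞, Measurable f → ∫⁻ w in S, f (ψ w) = ∫⁻ u, f u * D u) :
    MeasurePreserving ψ (volume.restrict S) (volume.withDensity D) := by
  refine ⟨hψ, ?_⟩
  ext E hE
  have h1 := h (E.indicator 1) (measurable_one.indicator hE)
  rw [Measure.map_apply hψ hE, withDensity_apply _ hE]
  have h2 : (∫⁻ w in S, (E.indicator 1 : Y → ℝ≥0∞) (ψ w)) = (volume.restrict S) (ψ ⁻¹' E) := by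
    rw [← lintegral_indicator_one (hψ hE)]
    rfl
  have h3 : (∫⁻ u, (E.indicator 1 : Y → ℝ≥0∞) u * D u) = ∫⁻ u in E, D u := by
    rw [← lintegral_indicator hE]
    refine lintegral_congr fun u => ?_
    by_cases hu : u ∈ E
    · simp [hu]
    · simp [hu]
  rw [← h2, h1, h3]

/-- the map at a real place -/
noncomputable def psR (w : Fin 4 → ℝ) : ℝ × ℝ × ℝ :=
  (w 1 / (3 * w 0), hc (fun i => (w i : ℂ)) 1 0, mm w)

/-- the map at a complex place -/
noncomputable def psC (w : Fin 4 → ℂ) : ℂ × ℝ × ℂ := (w 1 / (3 * w 0), hc w 1 0, mm w)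

theorem meas_psR : Measurable psR := by
  have h : Measurable fun w : Fin 4 → ℝ => hc (fun i => (w i : ℂ)) 1 0 := by
    have h1 : Measurable fun w : Fin 4 → ℝ => fun i : Fin 4 => (w i : ℂ) :=
      measurable_pi_iff.2 fun i => Complex.measurable_ofReal.comp (measurable_pi_apply i)
    exact meas_hcC.comp h1
  exact Measurable.prodMk (by fun_prop) (Measurable.prodMk h meas_mmR)

theorem meas_psC : Measurable psC :=
  Measurable.prodMk (by fun_prop) (Measurable.prodMk meas_hcC meas_mmC)

/-- the source at a real place -/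
def SR (b : Prop) : Set (Fin 4 → ℝ) := {w | w 0 ≠ 0 ∧ (b → mm w < 0) ∧ (¬ b → 0 < mm w)}

/-- the target at a real place -/
def TR (b : Prop) : Set (ℝ × ℝ × ℝ) := {u | 0 < u.2.1 ∧ (b → u.2.2 < 0) ∧ (¬ b → 0 < u.2.2)}

/-- the constant at a real place -/
noncomputable def cR (b : Prop) : ℝ := if b then Real.pi / 3 else Real.pi

/-- the density at a real place -/
noncomputable def DR (b : Prop) : ℝ × ℝ × ℝ → ℝ≥0∞ :=
  (TR b).indicator fun _ => ENNReal.ofReal (cR b)

/-- the source at a complex place -/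
def SC : Set (Fin 4 → ℂ) := {w | w 0 ≠ 0 ∧ mm w ≠ 0}

/-- the target at a complex place -/
def TC : Set (ℂ × ℝ × ℂ) := {u | 0 < u.2.1}

/-- the density at a complex place -/
noncomputable def DC : ℂ × ℝ × ℂ → ℝ≥0∞ :=
  TC.indicator fun u => ENNReal.ofReal (Real.pi ^ 2 / 3 * u.2.1)

theorem meas_TR (b : Prop) : MeasurableSet (TR b) := by
  have h1 : MeasurableSet {u : ℝ × ℝ × ℝ | 0 < u.2.1} :=
    measurableSet_lt measurable_const (measurable_fst.comp measurable_snd)
  have h2 : MeasurableSet {u : ℝ × ℝ × ℝ | u.2.2 < 0} :=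
    measurableSet_lt (measurable_snd.comp measurable_snd) measurable_const
  have h3 : MeasurableSet {u : ℝ × ℝ × ℝ | 0 < u.2.2} :=
    measurableSet_lt measurable_const (measurable_snd.comp measurable_snd)
  by_cases hb : b
  · have : TR b = {u : ℝ × ℝ × ℝ | 0 < u.2.1} ∩ {u : ℝ × ℝ × ℝ | u.2.2 < 0} := by
      ext u; simp [TR, hb]
    rw [this]
    exact h1.inter h2
  · have : TR b = {u : ℝ × ℝ × ℝ | 0 < u.2.1} ∩ {u : ℝ × ℝ × ℝ | 0 < u.2.2} := by
      ext u; simp [TR, hb]
    rw [this]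
    exact h1.inter h3

theorem meas_TC : MeasurableSet TC :=
  measurableSet_lt measurable_const (measurable_fst.comp measurable_snd)

theorem meas_DR (b : Prop) : Measurable (DR b) := measurable_const.indicator (meas_TR b)

theorem meas_DC : Measurable DC := by
  refine Measurable.indicator ?_ meas_TC
  exact ENNReal.measurable_ofReal.comp ((measurable_fst.comp measurable_snd).const_mul _)

theorem meas_SR (b : Prop) : MeasurableSet (SR b) := by
  have h0 : MeasurableSet {w : Fin 4 → ℝ | w 0 ≠ 0} :=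
    (measurableSet_eq_fun (measurable_pi_apply 0) measurable_const).compl
  have h2 : MeasurableSet {w : Fin 4 → ℝ | mm w < 0} := measurableSet_lt meas_mmR measurable_const
  have h3 : MeasurableSet {w : Fin 4 → ℝ | 0 < mm w} := measurableSet_lt measurable_const meas_mmR
  by_cases hb : b
  · have : SR b = {w : Fin 4 → ℝ | w 0 ≠ 0} ∩ {w : Fin 4 → ℝ | mm w < 0} := by
      ext u; simp [SR, hb]
    rw [this]
    exact h0.inter h2
  · have : SR b = {w : Fin 4 → ℝ | w 0 ≠ 0} ∩ {w : Fin 4 → ℝ | 0 < mm w} := by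
      ext u; simp [SR, hb]
    rw [this]
    exact h0.inter h3

theorem meas_SC : MeasurableSet SC := by
  have h0 : MeasurableSet {w : Fin 4 → ℂ | w 0 ≠ 0} :=
    (measurableSet_eq_fun (measurable_pi_apply 0) measurable_const).compl
  have h2 : MeasurableSet {w : Fin 4 → ℂ | mm w ≠ 0} :=
    (measurableSet_eq_fun meas_mmC measurable_const).compl
  exact h0.inter h2

instance sfR (b : Prop) : SigmaFinite ((volume : Measure (ℝ × ℝ × ℝ)).withDensity (DR b)) := by
  refine SigmaFinite.withDensity_of_ne_top' fun u => ?_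
  unfold DR
  by_cases hu : u ∈ TR b
  · simp [hu]
  · simp [hu]

instance sfC : SigmaFinite ((volume : Measure (ℂ × ℝ × ℂ)).withDensity DC) := by
  refine SigmaFinite.withDensity_of_ne_top' fun u => ?_
  unfold DC
  by_cases hu : u ∈ TC
  · simp [hu]
  · simp [hu]

theorem mp_psR (hpsh : LeoG.PshStmt) (htcb : TcbStmt) (hpsn : PsnStmt) (b : Prop) :
    MeasurePreserving psR (volume.restrict (SR b)) (volume.withDensity (DR b)) := by
  refine mp_of psR meas_psR _ _ fun f hf => ?_
  have hR : ∫⁻ u, f u * DR b u = ∫⁻ u in TR b, f u * ENNReal.ofReal (cR b) := by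
    rw [← lintegral_indicator (meas_TR b)]
    refine lintegral_congr fun u => ?_
    unfold DR
    by_cases hu : u ∈ TR b
    · simp [hu]
    · simp [hu]
  rw [hR]
  by_cases hb : b
  · have e1 : SR b = {w | w 0 ≠ 0 ∧ mm w < 0} := by ext u; simp [SR, hb]
    have e2 : TR b = {u | 0 < u.2.1 ∧ u.2.2 < 0} := by ext u; simp [TR, hb]
    have e3 : cR b = Real.pi / 3 := by simp [cR, hb]
    rw [e1, e2, e3]
    exact hpsn f hf
  · have e1 : SR b = {w | w 0 ≠ 0 ∧ 0 < mm w} := by ext u; simp [SR, hb]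
    have e2 : TR b = {u | 0 < u.2.1 ∧ 0 < u.2.2} := by ext u; simp [TR, hb]
    have e3 : cR b = Real.pi := by simp [cR, hb]
    have hS : MeasurableSet {w : Fin 4 → ℝ | w 0 ≠ 0 ∧ 0 < mm w} := by
      rw [← e1]; exact meas_SR b
    rw [e1, e2, e3, ← hpsh f hf]
    refine setLIntegral_congr_fun hS fun w hw => ?_
    have h1 := htcb.2.2.2.2 w hw.2 1 0
    rw [Complex.ofReal_one, Complex.ofReal_zero] at h1
    change f (psR w) = _
    unfold psR
    rw [h1]

theorem mp_psC (hpsc : PscStmt) :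
    MeasurePreserving psC (volume.restrict SC) (volume.withDensity DC) := by
  refine mp_of psC meas_psC _ _ fun f hf => ?_
  have hR : ∫⁻ u, f u * DC u = ∫⁻ u in TC, f u * ENNReal.ofReal (Real.pi ^ 2 / 3 * u.2.1) := by
    rw [← lintegral_indicator meas_TC]
    refine lintegral_congr fun u => ?_
    unfold DC
    by_cases hu : u ∈ TC
    · simp [hu]
    · simp [hu]
  rw [hR]
  exact hpsc f hf

/-! ## All places -/

variable (k : Type) [Field k] [NumberField k]

/-- the source -/
def SS (N : Set (RP k)) : Set (FS k) :=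
  (Set.pi univ fun w => SR (w ∈ N)) ×ˢ (Set.pi univ fun _ => SC)

/-- the map -/
noncomputable def Psi : FS k → IS k := Prod.map (fun a w => psR (a w)) (fun a w => psC (a w))

/-- the density -/
noncomputable def DD (N : Set (RP k)) (z : IS k) : ℝ≥0∞ :=
  (∏ w, DR (w ∈ N) (z.1 w)) * ∏ w, DC (z.2 w)

theorem mp_Psi (hpsh : LeoG.PshStmt) (htcb : TcbStmt) (hpsn : PsnStmt) (hpsc : PscStmt)
    (N : Set (RP k)) :
    MeasurePreserving (Psi k) (volume.restrict (SS k N)) (volume.withDensity (DD k N)) := by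
  have h1 := measurePreserving_pi
    (fun w : RP k => (volume : Measure (Fin 4 → ℝ)).restrict (SR (w ∈ N)))
    (fun w : RP k => (volume : Measure (ℝ × ℝ × ℝ)).withDensity (DR (w ∈ N)))
    (f := fun _ => psR) (fun w => mp_psR hpsh htcb hpsn (w ∈ N))
  have h2 := measurePreserving_pi
    (fun _ : CP k => (volume : Measure (Fin 4 → ℂ)).restrict SC)
    (fun _ : CP k => (volume : Measure (ℂ × ℝ × ℂ)).withDensity DC)
    (f := fun _ => psC) (fun _ => mp_psC hpsc)
  have h3 := h1.prod h2
  rw [pi_wd (fun _ : RP k => (volume : Measure (ℝ × ℝ × ℝ))) (fun w => DR (w ∈ N))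
      fun w => meas_DR _,
    pi_wd (fun _ : CP k => (volume : Measure (ℂ × ℝ × ℂ))) (fun _ => DC) fun w => meas_DC,
    prod_withDensity, ← Measure.restrict_pi_pi, ← Measure.restrict_pi_pi, Measure.prod_restrict]
    at h3
  · exact h3
  · exact Finset.measurable_prod _ fun w _ => (meas_DR _).comp (measurable_pi_apply w)
  · exact Finset.measurable_prod _ fun w _ => meas_DC.comp (measurable_pi_apply w)

theorem const_eq (N : Set (RP k)) :
    (∏ w : RP k, ENNReal.ofReal (cR (w ∈ N))) * ∏ _w : CP k, ENNReal.ofReal (Real.pi ^ 2 / 3) =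
      ENNReal.ofReal (Real.pi ^ finrank ℚ k / 3 ^ un N) := by
  have hcR : ∀ w : RP k, 0 ≤ cR (w ∈ N) := by
    intro w
    unfold cR
    split_ifs
    · positivity
    · positivity
  rw [← ENNReal.ofReal_prod_of_nonneg fun w _ => hcR w,
    ← ENNReal.ofReal_prod_of_nonneg fun w _ => by positivity,
    ← ENNReal.ofReal_mul (Finset.prod_nonneg fun w _ => hcR w)]
  refine congrArg _ ?_
  have h1 : ∏ w : RP k, cR (w ∈ N) = Real.pi ^ nrRealPlaces k / 3 ^ N.ncard := by
    have h2 : ∀ w : RP k, cR (w ∈ N) = Real.pi * (if w ∈ N then (1 / 3) else 1) := by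
      intro w
      unfold cR
      split_ifs
      · ring
      · ring
    rw [Finset.prod_congr rfl fun w _ => h2 w, Finset.prod_mul_distrib, Finset.prod_const,
      Finset.prod_ite, Finset.prod_const, Finset.prod_const_one, mul_one, Finset.card_univ]
    have h3 : (Finset.univ.filter fun w => w ∈ N).card = N.ncard := by
      rw [Set.ncard_eq_toFinset_card' N]
      refine congrArg _ ?_
      ext w
      simp
    rw [h3]
    have h4 : Fintype.card (RP k) = nrRealPlaces k := by
      unfold nrRealPlaces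
      rfl
    rw [h4, one_div, inv_pow, div_eq_mul_inv]
  have h5 : Fintype.card (CP k) = nrComplexPlaces k := by
    unfold nrComplexPlaces
    rfl
  rw [h1, Finset.prod_const, Finset.card_univ, h5, ← card_add_two_mul_card_eq_rank k, un, pow_add,
    pow_add, pow_mul, div_pow]
  field_simp

theorem dens_eq (x : PS k) :
    (∏ v : InfinitePlace k, ENNReal.ofReal (x v ^ (v.mult - 1))) =
      ∏ w : CP k, ENNReal.ofReal (x w.1) := by
  rw [prod_eq_prod_mul_prod]
  have h1 : ∀ w : RP k, ENNReal.ofReal (x w.1 ^ (w.1.mult - 1)) = 1 := by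
    intro w
    rw [mult_isReal]
    simp
  have h2 : ∀ w : CP k, ENNReal.ofReal (x w.1 ^ (w.1.mult - 1)) = ENNReal.ofReal (x w.1) := by
    intro w
    rw [mult_isComplex]
    simp
  rw [Finset.prod_congr rfl fun w _ => h1 w, Finset.prod_const_one, one_mul,
    Finset.prod_congr rfl fun w _ => h2 w]

theorem ev_real (w : RP k) (y : MS k) : ev w.1 y = (y.1 w : ℂ) := by
  simp [ev, w.2]

theorem ev_cplx (w : CP k) (y : MS k) : ev w.1 y = y.2 w := by
  have h : ¬ IsReal w.1 := not_isReal_iff_isComplex.2 w.2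
  simp [ev, h]

theorem mm_fst (g : Fin 4 → MS k) (w : RP k) :
    (mm g : MS k).1 w = mm (fun i => (g i).1 w) := by
  simp [mm, dsc]

theorem mm_snd (g : Fin 4 → MS k) (w : CP k) :
    (mm g : MS k).2 w = mm (fun i => (g i).2 w) := by
  simp [mm, dsc]

theorem xi_Psi (g : Fin 4 → MS k) :
    xiE k (Psi k (thE k g)) = (g 1 / (3 * g 0), sz g, mm g) := by
  refine Prod.ext ?_ (Prod.ext ?_ ?_)
  · refine Prod.ext ?_ ?_
    · funext w
      rfl
    · funext w
      rfl
  · funext v
    revert v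
    rw [all_glue]
    constructor
    · intro w
      refine (glue_real k (fun w => ((Psi k (thE k g)).1 w).2.1)
        (fun w => ((Psi k (thE k g)).2 w).2.1) w).trans ?_
      change hc (fun i => (((g i).1 w : ℝ) : ℂ)) 1 0 = hc (fun i => ev w.1 (g i)) 1 0
      refine congrArg (fun z => hc z 1 0) (funext fun i => ?_)
      rw [ev_real]
    · intro w
      refine (glue_cplx k (fun w => ((Psi k (thE k g)).1 w).2.1)
        (fun w => ((Psi k (thE k g)).2 w).2.1) w).trans ?_
      change hc (fun i => (g i).2 w) 1 0 = hc (fun i => ev w.1 (g i)) 1 0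
      refine congrArg (fun z => hc z 1 0) (funext fun i => ?_)
      rw [ev_cplx]
  · refine Prod.ext ?_ ?_
    · funext w
      exact (mm_fst k g w).symm
    · funext w
      exact (mm_snd k g w).symm

/-- VOL -/
theorem vol (hpsh : LeoG.PshStmt) (htcb : TcbStmt) (hpsn : PsnStmt) (hpsc : PscStmt) :
    LeoC.VolStmt := by
  intro k _ _ N G M A hG hA hM hA0 hM0
  have hYm : MeasurableSet (G ×ˢ (A ×ˢ M)) := hG.prod (hA.prod hM)
  have hBm : MeasurableSet ((xiE k) ⁻¹' (G ×ˢ (A ×ˢ M))) := (mp_xi k).measurable hYm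
  have hPm := mp_Psi k hpsh htcb hpsn hpsc N
  have hSm : MeasurableSet (SS k N) :=
    (MeasurableSet.univ_pi fun w => meas_SR _).prod (MeasurableSet.univ_pi fun w => meas_SC)
  have hEm : MeasurableSet ((Psi k) ⁻¹' ((xiE k) ⁻¹' (G ×ˢ (A ×ˢ M))) ∩ SS k N) :=
    (hPm.measurable hBm).inter hSm
  have hE : {g : Fin 4 → MS k | (∀ v, ev v (g 0) ≠ 0) ∧ (g 1 / (3 * g 0) : MS k) ∈ G ∧
        sz g ∈ A ∧ (mm g : MS k) ∈ M} =
      (thE k) ⁻¹' ((Psi k) ⁻¹' ((xiE k) ⁻¹' (G ×ˢ (A ×ˢ M))) ∩ SS k N) := by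
    ext g
    have hx := xi_Psi k g
    constructor
    · rintro ⟨h1, h2, h3, h4⟩
      refine ⟨?_, ?_, ?_⟩
      · change xiE k (Psi k (thE k g)) ∈ G ×ˢ (A ×ˢ M)
        rw [hx]
        exact ⟨h2, h3, h4⟩
      · intro w _
        have hs := (hM0 _ h4).1 w
        rw [mm_fst] at hs
        have h5 := h1 w.1
        rw [ev_real] at h5
        exact ⟨fun h => h5 (by
          change (g 0).1 w = 0 at h
          rw [h, Complex.ofReal_zero]), hs.1, hs.2⟩
      · intro w _
        have hs := (hM0 _ h4).2 w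
        rw [mm_snd] at hs
        have h5 := h1 w.1
        rw [ev_cplx] at h5
        exact ⟨h5, hs⟩
    · rintro ⟨h1, h2, h3⟩
      change xiE k (Psi k (thE k g)) ∈ G ×ˢ (A ×ˢ M) at h1
      rw [hx] at h1
      refine ⟨?_, h1.1, h1.2.1, h1.2.2⟩
      rw [all_glue]
      refine ⟨fun w => ?_, fun w => ?_⟩
      · rw [ev_real]
        exact fun h => (h2 w (mem_univ w)).1 (Complex.ofReal_eq_zero.1 h)
      · rw [ev_cplx]
        exact (h3 w (mem_univ w)).1
  rw [hE, (mp_th k).measure_preimage hEm.nullMeasurableSet,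
    ← Measure.restrict_apply (hPm.measurable hBm), hPm.measure_preimage hBm.nullMeasurableSet,
    withDensity_apply _ hBm]
  have hD : ∫⁻ z in (xiE k) ⁻¹' (G ×ˢ (A ×ˢ M)), DD k N z =
      ∫⁻ z in (xiE k) ⁻¹' (G ×ˢ (A ×ˢ M)),
        (fun y : JS k => ENNReal.ofReal (Real.pi ^ finrank ℚ k / 3 ^ un N) *
          ∏ v : InfinitePlace k, ENNReal.ofReal (y.2.1 v ^ (v.mult - 1))) (xiE k z) := by
    refine setLIntegral_congr_fun hBm fun z hz => ?_
    obtain ⟨h1, h2, h3⟩ := hz
    change DD k N z = ENNReal.ofReal (Real.pi ^ finrank ℚ k / 3 ^ un N) *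
          ∏ v : InfinitePlace k, ENNReal.ofReal ((xiE k z).2.1 v ^ (v.mult - 1))
    rw [dens_eq, ← const_eq]
    have hr : ∀ w : RP k, (xiE k z).2.1 w.1 = (z.1 w).2.1 :=
      glue_real k (fun w => (z.1 w).2.1) (fun w => (z.2 w).2.1)
    have hc : ∀ w : CP k, (xiE k z).2.1 w.1 = (z.2 w).2.1 :=
      glue_cplx k (fun w => (z.1 w).2.1) (fun w => (z.2 w).2.1)
    have e1 : ∀ w : RP k, DR (w ∈ N) (z.1 w) = ENNReal.ofReal (cR (w ∈ N)) := by
      intro w
      have h4 : z.1 w ∈ TR (w ∈ N) := by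
        refine ⟨?_, ?_⟩
        · rw [← hr w]
          exact hA0 _ h2 w.1
        · exact (hM0 _ h3).1 w
      unfold DR
      simp [h4]
    have e2 : ∀ w : CP k, DC (z.2 w) =
        ENNReal.ofReal (Real.pi ^ 2 / 3) * ENNReal.ofReal ((xiE k z).2.1 w.1) := by
      intro w
      have h4 : z.2 w ∈ TC := by
        change 0 < (z.2 w).2.1
        rw [← hc w]
        exact hA0 _ h2 w.1
      unfold DC
      rw [indicator_of_mem h4, hc w, ENNReal.ofReal_mul (by positivity)]
    unfold DD
    rw [Finset.prod_congr rfl fun w _ => e1 w, Finset.prod_congr rfl fun w _ => e2 w,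
      Finset.prod_mul_distrib, mul_assoc]
  have hFm : Measurable fun x : PS k =>
      ∏ v : InfinitePlace k, ENNReal.ofReal (x v ^ (v.mult - 1)) :=
    Finset.measurable_prod _ fun v _ =>
      ENNReal.measurable_ofReal.comp ((measurable_pi_apply v).pow_const _)
  have hFm2 : Measurable fun y : JS k =>
      ∏ v : InfinitePlace k, ENNReal.ofReal (y.2.1 v ^ (v.mult - 1)) :=
    hFm.comp (measurable_fst.comp measurable_snd)
  have hYf : Measurable fun y : JS k => ENNReal.ofReal (Real.pi ^ finrank ℚ k / 3 ^ un N) *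
          ∏ v : InfinitePlace k, ENNReal.ofReal (y.2.1 v ^ (v.mult - 1)) :=
    hFm2.const_mul _
  rw [hD, (mp_xi k).setLIntegral_comp_preimage hYm hYf]
  rw [lintegral_const_mul _ hFm2]
  have e1 : (volume : Measure (JS k)).restrict (G ×ˢ (A ×ˢ M)) =
      (volume.restrict G).prod ((volume.restrict A).prod (volume.restrict M)) := by
    rw [Measure.prod_restrict, Measure.prod_restrict]
    rfl
  rw [e1]
  have e2 : ∫⁻ y : JS k, (∏ v : InfinitePlace k, ENNReal.ofReal (y.2.1 v ^ (v.mult - 1)))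
      ∂((volume.restrict G).prod ((volume.restrict A).prod (volume.restrict M))) =
      volume G * ((∫⁻ x in A, ∏ v : InfinitePlace k, ENNReal.ofReal (x v ^ (v.mult - 1))) *
        volume M) := by
    have e3 := lintegral_prod_mul (μ := (volume.restrict A : Measure (PS k)))
      (ν := (volume.restrict M : Measure (MS k)))
      (f := fun x => ∏ v : InfinitePlace k, ENNReal.ofReal (x v ^ (v.mult - 1)))
      (g := fun _ => 1) hFm.aemeasurable aemeasurable_const
    have e4 := lintegral_prod_mul (μ := (volume.restrict G : Measure (MS k)))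
      (ν := ((volume.restrict A).prod (volume.restrict M) : Measure (PS k × MS k)))
      (f := fun _ => 1)
      (g := fun y => (∏ v : InfinitePlace k, ENNReal.ofReal (y.1 v ^ (v.mult - 1))) * 1)
      aemeasurable_const ((hFm.comp measurable_fst).mul_const 1).aemeasurable
    rw [e3] at e4
    simp only [mul_one, one_mul, lintegral_one, Measure.restrict_apply MeasurableSet.univ,
      univ_inter] at e4
    exact e4
  rw [e2]
  ring

end Pool.Agent.LeoC.H2
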